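import Pool.Agent.Helper55.SD.Defs

/-!
Second wave of the project SDET (MP_381749_lc): entries of degree at most `dl`, abstract
rewriting families (minors, sub-Pfaffians).  Shared definitions.
-/

open MvPolynomial Finset
open scoped BigOperators ENNReal

namespace Pool.SDD

universe u v w
variable {K : Type u} [Field K]

/-- multiples of the family `g`, by monomials of degree at most `l` -/
noncomputable def Wl {Y : Type v} {ι : Type w} (g : ι → MvPolynomial Y K) (l : ℕ) :
    Submodule K (MvPolynomial Y K) :=
  Submodule.span K {f | ∃ (μ : Y →₀ ℕ) (i : ι), μ.degree ≤ l ∧ f = monomial μ 1 * g i}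

/-- weighted multiples: the variables of `E` have weight `dl`, those of `Y` weight one -/
noncomputable def WS {E : Type v} {ι : Type w} (Y : Type v) (p : ι → MvPolynomial E K)
    (dl L : ℕ) : Submodule K (MvPolynomial (Y ⊕ E) K) :=
  Submodule.span K {f | ∃ (μ : Y →₀ ℕ) (ν : E →₀ ℕ) (i : ι), μ.degree + dl * ν.degree ≤ L ∧
    f = rename Sum.inl (monomial μ 1) * (rename Sum.inr (monomial ν 1) * rename Sum.inr (p i))}

/-- every multiple of a member of the family is a combination of reduced multiples
of the same degree: no variable of `Fb j` divides the multiplier of `p j` -/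
def Reduces {E : Type v} {ι : Type w} (p : ι → MvPolynomial E K) (Fb : ι → Finset E) : Prop :=
  ∀ (ν : E →₀ ℕ) (i : ι), monomial ν 1 * p i ∈ Submodule.span K
    {f | ∃ (ν' : E →₀ ℕ) (j : ι), ν'.degree = ν.degree ∧ Disjoint ν'.support (Fb j) ∧
      f = monomial ν' 1 * p j}

/-- a tower of families: derivatives go one step down, and the elements of one level are
combinations of variables times elements of the level below -/
structure Tower {E : Type v} {ι : ℕ → Type w} (p : ∀ k, ι k → MvPolynomial E K) : Prop where
  der : ∀ k i e, pderiv e (p (k + 1) i) ∈ Submodule.span K (Set.range (p k))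
  eul : ∀ k i, p (k + 1) i ∈ Submodule.span K
    {f | ∃ (e : E) (j : ι k), f = X e * p k j}

end Pool.SDD
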