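import Pool.Agent.SDD.Udelta
import Pool.Agent.Helper67.SDD.R1
import Pool.Agent.Helper97.PF.Tower

/-!
Second wave of the project SDET: main inequality for towers and for sub-Pfaffians.
-/

open MvPolynomial Finset
open scoped BigOperators ENNReal

namespace Pool.SDD

/-- statement of row R2 for the variables `Y` -/
def MixedDer (K : Type*) [Field K] (Y : Type) {E : Type} {ι : ℕ → Type}
    (p : ∀ k, ι k → MvPolynomial E K) (k D nu dl : ℕ) : Prop :=
  ∀ (A : E → MvPolynomial (Y ⊕ Fin D) K), (∀ e, (A e).totalDegree ≤ dl) →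
    ∀ F ∈ Wl (fun j => aeval A (p (k + D) j)) nu,
    ∃ G ∈ Wl (fun j => aeval (fun e => aeval (Sum.elim X 0 : _ → MvPolynomial Y K) (A e)) (p k j))
      (nu + D * (dl - 1)),
    ∀ u : Y →₀ ℕ, coeff u G =
      coeff (u.embDomain ⟨Sum.inl, Sum.inl_injective⟩ +
        ∑ b : Fin D, Finsupp.single (Sum.inr b) 1) F

universe u
variable {K : Type u} [Field K]

theorem main_ineq [CharZero K] {E : Type} {ι : ℕ → Type} [Fintype E] [∀ k, Fintype (ι k)]
    (p : ∀ k, ι k → MvPolynomial E K)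
    (Fb : ∀ k, ι k → Finset E) (hr : ∀ k, Reduces (p k) (Fb k))
    {n T k D N a dl nu : ℕ}
    (hmd : MixedDer K ((Fin D ⊕ Fin D) × Option (Fin N)) p k D nu dl)
    (haN : a < N) (hn : D * (2 * (N + a) + 1) ≤ n) (hdl : 1 ≤ dl)
    (A : Fin T → E → MvPolynomial (Fin n × Fin n) K) (hA : ∀ t e, (A t e).totalDegree ≤ dl)
    (f : Fin T → MvPolynomial (Fin n × Fin n) K)
    (hf : ∀ t, f t ∈ Wl (fun j => aeval (A t) (p (k + D) j)) nu)
    (h : (Matrix.of fun i j => (X (i, j) : MvPolynomial (Fin n × Fin n) K)).permanent =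
      ∑ t, f t)
    (Q : ℝ≥0∞) (hQ : Q < 1) :
    Q ^ (nu + D * (dl - 1)) * (1 - (1 - Q ^ N) ^ (a + 1)) ^ (2 * D) ≤
      Q ^ ((N - a) * (2 * D)) * (T * ∑ j : ι k, (1 - Q ^ dl) ^ (Fb k j).card) := by
  obtain ⟨φ0, φ, hφ1, hφ2, hφ3⟩ := R1 (K := K) hn
  exact main_ineq_of haN (p (k + D)) (p k) φ0 φ hφ1 hφ2 hφ3 hmd Q hQ _
    (fun A' hA' => Udelta (p k) (Fb k) (hr k) dl hdl A' hA' Q hQ) A hA f hf h

/-- sub-Pfaffians of alternating matrices of size `2 (k + D + eta)` -/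
theorem main_pf [CharZero K] {n T k D N a dl nu eta : ℕ}
    (hmd : MixedDer K ((Fin D ⊕ Fin D) × Option (Fin N)) (Pool.PF.pfam K (2 * (k + D + eta)))
      k D nu dl)
    (hk : 1 ≤ k) (haN : a < N) (hn : D * (2 * (N + a) + 1) ≤ n) (hdl : 1 ≤ dl)
    (A : Fin T → Pool.PF.Cell (2 * (k + D + eta)) → MvPolynomial (Fin n × Fin n) K)
    (hA : ∀ t e, (A t e).totalDegree ≤ dl)
    (f : Fin T → MvPolynomial (Fin n × Fin n) K)
    (hf : ∀ t, f t ∈
      Wl (fun j => aeval (A t) (Pool.PF.pfam K (2 * (k + D + eta)) (k + D) j)) nu)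
    (h : (Matrix.of fun i j => (X (i, j) : MvPolynomial (Fin n × Fin n) K)).permanent =
      ∑ t, f t)
    (Q : ℝ≥0∞) (hQ : Q < 1) :
    Q ^ (nu + D * (dl - 1)) * (1 - (1 - Q ^ N) ^ (a + 1)) ^ (2 * D) ≤
      Q ^ ((N - a) * (2 * D)) * (T * ∑ j ∈ Finset.range (2 * (D + eta) + 1),
        (Nat.choose (2 * k - 1 + j) j : ℝ≥0∞) * (1 - Q ^ dl) ^ j) := by
  have h1 := main_ineq (Pool.PF.pfam K (2 * (k + D + eta))) (fun _ => Pool.PF.forb)
    (fun k => Pool.PF.pfam_reduces k) hmd haN hn hdl A hA f hf h Q hQ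
  refine h1.trans ?_
  gcongr
  refine (Pool.PF.sum_pow_card_forb_le hk _).trans (le_of_eq ?_)
  rw [show 2 * (k + D + eta) - 2 * k + 1 = 2 * (D + eta) + 1 by omega]

/-- the same for a real `q` -/
theorem main_pf_real [CharZero K] {n T k D N a dl nu eta : ℕ}
    (hmd : MixedDer K ((Fin D ⊕ Fin D) × Option (Fin N)) (Pool.PF.pfam K (2 * (k + D + eta)))
      k D nu dl)
    (hk : 1 ≤ k) (haN : a < N) (hn : D * (2 * (N + a) + 1) ≤ n) (hdl : 1 ≤ dl)
    (A : Fin T → Pool.PF.Cell (2 * (k + D + eta)) → MvPolynomial (Fin n × Fin n) K)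
    (hA : ∀ t e, (A t e).totalDegree ≤ dl)
    (f : Fin T → MvPolynomial (Fin n × Fin n) K)
    (hf : ∀ t, f t ∈
      Wl (fun j => aeval (A t) (Pool.PF.pfam K (2 * (k + D + eta)) (k + D) j)) nu)
    (h : (Matrix.of fun i j => (X (i, j) : MvPolynomial (Fin n × Fin n) K)).permanent =
      ∑ t, f t)
    (q : ℝ) (hq0 : 0 < q) (hq1 : q < 1) :
    q ^ (D * (dl - 1) + nu) * (1 - (1 - q ^ N) ^ (a + 1)) ^ (2 * D) ≤
      q ^ ((N - a) * (2 * D)) * (T * ∑ j ∈ Finset.range (2 * (D + eta) + 1),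
        (Nat.choose (2 * k - 1 + j) j : ℝ) * (1 - q ^ dl) ^ j) := by
  have hQ : ENNReal.ofReal q < 1 := by
    rw [← ENNReal.ofReal_one]
    exact (ENNReal.ofReal_lt_ofReal_iff (by norm_num)).mpr hq1
  have key := main_pf hmd hk haN hn hdl A hA f hf h (ENNReal.ofReal q) hQ
  have hpow : ∀ i : ℕ, (1 : ℝ≥0∞) - ENNReal.ofReal q ^ i = ENNReal.ofReal (1 - q ^ i) := by
    intro i
    rw [ENNReal.ofReal_sub _ (pow_nonneg hq0.le _), ENNReal.ofReal_pow hq0.le, ENNReal.ofReal_one]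
  have h1q : ∀ i : ℕ, 0 ≤ 1 - q ^ i := fun i => by
    have := pow_le_one₀ (n := i) hq0.le hq1.le
    linarith
  have h1qN' : (1 - q ^ N) ^ (a + 1) ≤ 1 :=
    pow_le_one₀ (h1q N) (by linarith [pow_pos hq0 N])
  have e1 : ((1 : ℝ≥0∞) - (1 - ENNReal.ofReal q ^ N) ^ (a + 1)) ^ (2 * D) =
      ENNReal.ofReal ((1 - (1 - q ^ N) ^ (a + 1)) ^ (2 * D)) := by
    rw [hpow, ENNReal.ofReal_pow (by linarith), ENNReal.ofReal_sub _ (pow_nonneg (h1q N) _),
      ENNReal.ofReal_pow (h1q N), ENNReal.ofReal_one]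
  have e2 : ∑ j ∈ Finset.range (2 * (D + eta) + 1), (Nat.choose (2 * k - 1 + j) j : ℝ≥0∞) *
      (1 - ENNReal.ofReal q ^ dl) ^ j = ENNReal.ofReal (∑ j ∈ Finset.range (2 * (D + eta) + 1),
        (Nat.choose (2 * k - 1 + j) j : ℝ) * (1 - q ^ dl) ^ j) := by
    rw [ENNReal.ofReal_sum_of_nonneg (fun j _ => mul_nonneg (by positivity)
      (pow_nonneg (h1q dl) _))]
    apply Finset.sum_congr rfl
    intro j _
    rw [hpow, ENNReal.ofReal_mul (by positivity), ENNReal.ofReal_pow (h1q dl),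
      ENNReal.ofReal_natCast]
  have hS : 0 ≤ ∑ j ∈ Finset.range (2 * (D + eta) + 1), (Nat.choose (2 * k - 1 + j) j : ℝ) *
      (1 - q ^ dl) ^ j :=
    Finset.sum_nonneg (fun j _ => mul_nonneg (by positivity) (pow_nonneg (h1q dl) _))
  rw [e1, e2, ← ENNReal.ofReal_pow hq0.le, ← ENNReal.ofReal_pow hq0.le, ← ENNReal.ofReal_natCast,
    ← ENNReal.ofReal_mul (by positivity), ← ENNReal.ofReal_mul (by positivity),
    ← ENNReal.ofReal_mul (by positivity)] at key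
  have h3 := (ENNReal.ofReal_le_ofReal_iff
    (mul_nonneg (by positivity) (mul_nonneg (by positivity) hS))).mp key
  rw [add_comm (D * (dl - 1))]
  exact h3

end Pool.SDD
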