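import Pool.Agent.SDD.Asm
import Pool.Agent.Helper90.SD.UW

/-!
Second wave of the project SDET: helper90's cancelled form, in the language of `Reduces`, `Wl`.
-/

open MvPolynomial Finset
open scoped BigOperators ENNReal

namespace Pool.SDD

variable {K : Type*} [Field K]

lemma mulSpan_one_eq {Y : Type*} {ι : Type*} (g : ι → MvPolynomial Y K) (l : ℕ) :
    Pool.Agent.Helper41.SD.mulSpan (K := K) (fun _ : Y => (1 : ℕ)) l g = Wl g l := by
  unfold Pool.Agent.Helper41.SD.mulSpan Wl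
  congr 1
  ext p
  constructor
  · rintro ⟨μ, i, hμ, rfl⟩
    refine ⟨μ, i, ?_, rfl⟩
    rw [Finsupp.degree_eq_weight_one]
    exact hμ
  · rintro ⟨μ, i, hμ, rfl⟩
    refine ⟨μ, i, ?_, rfl⟩
    rw [Finsupp.degree_eq_weight_one] at hμ
    exact hμ

theorem Udelta {Y E ι : Type*} [Fintype Y] [Fintype E] [Fintype ι]
    (p : ι → MvPolynomial E K) (Fb : ι → Finset E) (hr : Reduces p Fb)
    (dl : ℕ) (hdl : 1 ≤ dl) (A : E → MvPolynomial Y K) (hA : ∀ e, (A e).totalDegree ≤ dl)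
    (Q : ℝ≥0∞) (hQ : Q < 1) :
    (1 - Q) ^ (Fintype.card Y + 1) *
        ∑' l, Q ^ l * (Module.finrank K (Wl (fun i => aeval A (p i)) l) : ℝ≥0∞) ≤
      ∑ i, (1 - Q ^ dl) ^ (Fb i).card := by
  classical
  have hs : Pool.Agent.Helper90.SD.Straight p Fb := by
    intro i ν
    refine Submodule.span_mono ?_ (hr ν i)
    rintro _ ⟨ν', j, h1, h2, rfl⟩
    refine ⟨ν', j, h1, fun e he => ?_, rfl⟩
    by_contra h3
    exact Finset.disjoint_left.1 h2 (Finsupp.mem_support_iff.2 h3) he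
  have h := Pool.Agent.Helper90.SD.UW2 (σ := Y) p Fb hs dl hdl A hA Q hQ
  have e : ∀ l, Pool.Agent.Helper41.SD.mulSpan (K := K) (fun _ : Y => (1 : ℕ)) l
      (fun k => aeval A (p k)) = Wl (fun k => aeval A (p k)) l := fun l => mulSpan_one_eq _ l
  have e2 : ∀ l, Module.finrank K (Pool.Agent.Helper41.SD.mulSpan (K := K) (fun _ : Y => (1 : ℕ)) l
      (fun k => aeval A (p k))) = Module.finrank K (Wl (fun k => aeval A (p k)) l) := fun l => by
    rw [e l]
  refine le_trans (le_of_eq ?_) h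
  congr 1
  refine tsum_congr fun l => ?_
  rw [e2 l]

end Pool.SDD
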