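import Pool.Agent.SDD.Udelta
import Pool.Agent.Helper97.PF.Tower

/-!
Second wave of the project SDET: the two facts needed for the Pfaffian instance of
`main_ineq_of` (side (U), passage to real `q`).
-/

open MvPolynomial Finset
open scoped BigOperators ENNReal

namespace Pool.SDD

universe u
variable {K : Type u} [Field K]

/-- hypothesis `hU` of `main_ineq_of` for sub-Pfaffians of order `2 k` of alternating matrices of
size `2 m`, entries of degree at most `dl` -/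
theorem pf_hU {Y : Type*} [Fintype Y] {m k dl : ℕ} (hk : 1 ≤ k) (hkm : k ≤ m) (hdl : 1 ≤ dl)
    (A : Pool.PF.Cell (2 * m) → MvPolynomial Y K) (hA : ∀ e, (A e).totalDegree ≤ dl)
    (Q : ℝ≥0∞) (hQ : Q < 1) :
    (1 - Q) ^ (Fintype.card Y + 1) *
        ∑' l, Q ^ l * (Module.finrank K
          (Wl (fun j => aeval A (Pool.PF.pfam K (2 * m) k j)) l) : ℝ≥0∞) ≤
      ∑ j ∈ Finset.range (2 * (m - k) + 1),
        (Nat.choose (2 * k - 1 + j) j : ℝ≥0∞) * (1 - Q ^ dl) ^ j := by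
  have h1 := Udelta (Pool.PF.pfam K (2 * m) k) Pool.PF.forb (Pool.PF.pfam_reduces k) dl hdl A hA
    Q hQ
  refine h1.trans ((Pool.PF.sum_pow_card_forb_le hk _).trans (le_of_eq ?_))
  rw [show 2 * m - 2 * k + 1 = 2 * (m - k) + 1 by omega]

/-- passage from `ENNReal` to real `q` -/
theorem real_transfer {T D N a dl nu b k : ℕ} (q : ℝ) (hq0 : 0 < q) (hq1 : q < 1)
    (key : ENNReal.ofReal q ^ (nu + D * (dl - 1)) *
        (1 - (1 - ENNReal.ofReal q ^ N) ^ (a + 1)) ^ (2 * D) ≤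
      ENNReal.ofReal q ^ ((N - a) * (2 * D)) * (T * ∑ j ∈ Finset.range b,
        (Nat.choose (k + j) j : ℝ≥0∞) * (1 - ENNReal.ofReal q ^ dl) ^ j)) :
    q ^ (nu + D * (dl - 1)) * (1 - (1 - q ^ N) ^ (a + 1)) ^ (2 * D) ≤
      q ^ ((N - a) * (2 * D)) * (T * ∑ j ∈ Finset.range b,
        (Nat.choose (k + j) j : ℝ) * (1 - q ^ dl) ^ j) := by
  have hpow : ∀ i : ℕ, (1 : ℝ≥0∞) - ENNReal.ofReal q ^ i = ENNReal.ofReal (1 - q ^ i) := by
    intro i
    rw [ENNReal.ofReal_sub _ (pow_nonneg hq0.le _), ENNReal.ofReal_pow hq0.le, ENNReal.ofReal_one]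
  have h1q : ∀ i : ℕ, 0 ≤ 1 - q ^ i := fun i => by
    have := pow_le_one₀ (n := i) hq0.le hq1.le
    linarith
  have h1qN' : (1 - q ^ N) ^ (a + 1) ≤ 1 :=
    pow_le_one₀ (h1q N) (by linarith [pow_pos hq0 N])
  have e1 : ((1 : ℝ≥0∞) - (1 - ENNReal.ofReal q ^ N) ^ (a + 1)) ^ (2 * D) =
      ENNReal.ofReal ((1 - (1 - q ^ N) ^ (a + 1)) ^ (2 * D)) := by
    rw [hpow, ENNReal.ofReal_pow (by linarith), ENNReal.ofReal_sub _ (pow_nonneg (h1q N) _),
      ENNReal.ofReal_pow (h1q N), ENNReal.ofReal_one]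
  have e2 : ∑ j ∈ Finset.range b, (Nat.choose (k + j) j : ℝ≥0∞) *
      (1 - ENNReal.ofReal q ^ dl) ^ j = ENNReal.ofReal (∑ j ∈ Finset.range b,
        (Nat.choose (k + j) j : ℝ) * (1 - q ^ dl) ^ j) := by
    rw [ENNReal.ofReal_sum_of_nonneg (fun j _ => mul_nonneg (by positivity)
      (pow_nonneg (h1q dl) _))]
    apply Finset.sum_congr rfl
    intro j _
    rw [hpow, ENNReal.ofReal_mul (by positivity), ENNReal.ofReal_pow (h1q dl),
      ENNReal.ofReal_natCast]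
  have hS : 0 ≤ ∑ j ∈ Finset.range b, (Nat.choose (k + j) j : ℝ) * (1 - q ^ dl) ^ j :=
    Finset.sum_nonneg (fun j _ => mul_nonneg (by positivity) (pow_nonneg (h1q dl) _))
  rw [e1, e2, ← ENNReal.ofReal_pow hq0.le, ← ENNReal.ofReal_pow hq0.le, ← ENNReal.ofReal_natCast,
    ← ENNReal.ofReal_mul (by positivity), ← ENNReal.ofReal_mul (by positivity),
    ← ENNReal.ofReal_mul (by positivity)] at key
  exact (ENNReal.ofReal_le_ofReal_iff
    (mul_nonneg (by positivity) (mul_nonneg (by positivity) hS))).mp key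

end Pool.SDD
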