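import Pool.Agent.SDD.Defs
import Pool.Agent.Helper55.SD.SideL

/-!
Second wave of the project SDET: assembly of the main inequality for abstract towers.
-/

open MvPolynomial Finset
open scoped BigOperators ENNReal

namespace Pool.SDD

universe u v w
variable {K : Type u} [Field K]

lemma totalDegree_aeval_le_mul {X Y : Type*} (φ : X → MvPolynomial Y K) (c : ℕ)
    (hφ : ∀ x, (φ x).totalDegree ≤ c) (f : MvPolynomial X K) :
    (aeval φ f).totalDegree ≤ f.totalDegree * c := by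
  classical
  rw [aeval_def, eval₂_eq]
  refine (totalDegree_finsetSum _ _).trans (Finset.sup_le fun d hd => ?_)
  refine (totalDegree_mul _ _).trans ?_
  have h1 : (algebraMap K (MvPolynomial Y K) (coeff d f)).totalDegree = 0 :=
    totalDegree_C _
  rw [h1, zero_add]
  refine (totalDegree_finsetProd _ _).trans ?_
  calc ∑ i ∈ d.support, (φ i ^ d i).totalDegree ≤ ∑ i ∈ d.support, d i * c :=
        Finset.sum_le_sum fun i _ => (totalDegree_pow _ _).trans (Nat.mul_le_mul_left _ (hφ i))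
    _ = (∑ i ∈ d.support, d i) * c := by rw [Finset.sum_mul]
    _ ≤ f.totalDegree * c := Nat.mul_le_mul_right _ (le_totalDegree hd)

lemma Wl_mono {Y : Type v} {ι : Type w} (g : ι → MvPolynomial Y K) {l l' : ℕ} (h : l ≤ l') :
    Wl g l ≤ Wl g l' :=
  Submodule.span_mono fun _ ⟨μ, i, hμ, hf⟩ => ⟨μ, i, hμ.trans h, hf⟩

lemma monomial_mul_mem_Wl {Y : Type v} {ι : Type w} {g : ι → MvPolynomial Y K} {l c : ℕ}
    {μ : Y →₀ ℕ} (hμ : μ.degree ≤ l) {G : MvPolynomial Y K} (hG : G ∈ Wl g c) :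
    monomial μ 1 * G ∈ Wl g (l + c) := by
  unfold Wl at hG
  induction hG using Submodule.span_induction with
  | mem f hf =>
    obtain ⟨μ', i, hμ', rfl⟩ := hf
    refine Submodule.subset_span ⟨μ + μ', i, ?_, ?_⟩
    · rw [map_add]; omega
    · rw [← mul_assoc, monomial_mul, one_mul]
  | zero => rw [mul_zero]; exact Submodule.zero_mem _
  | add x y _ _ hx hy => rw [mul_add]; exact Submodule.add_mem _ hx hy
  | smul a x _ hx => rw [mul_smul_comm]; exact Submodule.smul_mem _ _ hx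

lemma finite_degree_le (Y : Type v) [Finite Y] (l : ℕ) : Finite {μ : Y →₀ ℕ // μ.degree ≤ l} := by
  classical
  have := Fintype.ofFinite Y
  refine Finite.of_injective (β := Y → Fin (l + 1))
    (fun μ y => ⟨μ.1 y, Nat.lt_succ_of_le ((Finsupp.le_degree y μ.1).trans μ.2)⟩) ?_
  intro a b hab
  apply Subtype.ext
  ext y
  have := congrFun hab y
  simpa using this

instance finite_Wl {Y : Type v} [Finite Y] {ι : Type w} [Finite ι] (g : ι → MvPolynomial Y K)
    (l : ℕ) : Module.Finite K (Wl g l) := by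
  have := finite_degree_le Y l
  have hs : Set.Finite {f | ∃ (μ : Y →₀ ℕ) (i : ι), μ.degree ≤ l ∧
      f = monomial μ (1 : K) * g i} := by
    refine (Set.finite_range (fun x : {μ : Y →₀ ℕ // μ.degree ≤ l} × ι =>
      monomial x.1.1 (1 : K) * g x.2)).subset ?_
    rintro f ⟨μ, i, hμ, rfl⟩
    exact ⟨(⟨μ, hμ⟩, i), rfl⟩
  exact FiniteDimensional.span_of_finite K hs

lemma finrank_iSup_le {V : Type*} [AddCommGroup V] [Module K V] {T : ℕ}
    (S : Fin T → Submodule K V) [∀ i, Module.Finite K (S i)] :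
    Module.finrank K (⨆ i, S i : Submodule K V) ≤ ∑ i, Module.finrank K (S i) := by
  classical
  rw [← Finset.sup_univ_eq_iSup]
  induction (Finset.univ : Finset (Fin T)) using Finset.induction_on with
  | empty => simp
  | insert a s ha ih =>
    rw [Finset.sup_insert, Finset.sum_insert ha]
    have : Module.Finite K (s.sup S : Submodule K V) := Submodule.finite_finset_sup s S
    exact (Submodule.finrank_add_le_finrank_add_finrank _ _).trans (by gcongr)

lemma series_shift (F : ℕ → ℕ) (c : ℕ) (Q : ℝ≥0∞) :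
    Q ^ c * ∑' l, Q ^ l * (F (l + c) : ℝ≥0∞) ≤ ∑' l, Q ^ l * (F l : ℝ≥0∞) := by
  rw [← ENNReal.tsum_mul_left]
  have h : ∀ l, Q ^ c * (Q ^ l * (F (l + c) : ℝ≥0∞)) = Q ^ (l + c) * (F (l + c) : ℝ≥0∞) := by
    intro l
    rw [← mul_assoc, ← pow_add, add_comm c]
  simp_rw [h]
  exact ENNReal.tsum_comp_le_tsum_of_injective (add_left_injective c)
    (fun l => Q ^ l * (F l : ℝ≥0∞))

/-- products over the blocks, without the extra type -/
noncomputable def V0 {σ κ : Type*} (B : Type*) [Fintype B] (g : κ → MvPolynomial σ K) (l : ℕ) :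
    Submodule K (MvPolynomial (B × σ) K) :=
  Submodule.span K {f | ∃ (μ : (B × σ) →₀ ℕ) (k : B → κ), μ.degree ≤ l ∧
    f = monomial μ 1 * ∏ b, rename (fun v => (b, v)) (g (k b))}

instance finite_V0 {σ κ : Type*} [Finite σ] [Finite κ] (B : Type*) [Fintype B]
    (g : κ → MvPolynomial σ K) (l : ℕ) : Module.Finite K (V0 B g l) := by
  have := finite_degree_le (B × σ) l
  have hs : Set.Finite {f | ∃ (μ : (B × σ) →₀ ℕ) (k : B → κ), μ.degree ≤ l ∧
    f = monomial μ (1 : K) * ∏ b, rename (fun v => (b, v)) (g (k b))} := by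
    refine (Set.finite_range (fun x : {μ : (B × σ) →₀ ℕ // μ.degree ≤ l} × (B → κ) =>
      monomial x.1.1 (1 : K) * ∏ b, rename (fun v => (b, v)) (g (x.2 b)))).subset ?_
    rintro f ⟨μ, i, hμ, rfl⟩
    exact ⟨(⟨μ, hμ⟩, i), rfl⟩
  exact FiniteDimensional.span_of_finite K hs

lemma Vl_finrank_le {σ κ : Type*} [Finite σ] [Finite κ] (B : Type*) [Fintype B]
    (g : κ → MvPolynomial σ K) (l : ℕ) :
    Module.finrank K (Pool.SDL.Vl B Empty g l) ≤ Module.finrank K (V0 B g l) := by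
  have h : Pool.SDL.Vl B Empty g l ≤
      (V0 B g l).map (rename Sum.inl : MvPolynomial (B × σ) K →ₐ[K]
        MvPolynomial ((B × σ) ⊕ Empty) K).toLinearMap := by
    unfold Pool.SDL.Vl
    rw [Submodule.span_le]
    rintro f ⟨μ, k, hμ, rfl⟩
    let e : (B × σ) ⊕ Empty ≃ B × σ := Equiv.sumEmpty _ _
    refine ⟨monomial (μ.mapDomain e) 1 * ∏ b, rename (fun v => (b, v)) (g (k b)),
      Submodule.subset_span ⟨_, k, ?_, rfl⟩, ?_⟩
    · rw [Finsupp.degree_mapDomain]
      exact hμ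
    · simp only [AlgHom.toLinearMap_apply, map_mul, map_prod, rename_rename, rename_monomial]
      have : Finsupp.mapDomain Sum.inl (Finsupp.mapDomain (⇑e) μ) = μ := by
        rw [← Finsupp.mapDomain_comp]
        have h2 : (Sum.inl ∘ ⇑e : (B × σ) ⊕ Empty → (B × σ) ⊕ Empty) = id := by
          funext x
          rcases x with x | x
          · rfl
          · exact x.elim
        rw [h2, Finsupp.mapDomain_id]
      rw [this]
      rfl
  exact (Submodule.finrank_mono h).trans (Submodule.finrank_map_le _ _)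

lemma mul_mem_Wl {Y : Type v} {ι : Type w} {g : ι → MvPolynomial Y K} {l c : ℕ}
    {F G : MvPolynomial Y K} (hF : F.totalDegree ≤ l) (hG : G ∈ Wl g c) : F * G ∈ Wl g (l + c) := by
  classical
  rw [F.as_sum, Finset.sum_mul]
  refine Submodule.sum_mem _ fun d hd => ?_
  have h1 : monomial d (coeff d F) = coeff d F • monomial d (1 : K) := by
    rw [smul_monomial, smul_eq_mul, mul_one]
  rw [h1, smul_mul_assoc]
  refine Submodule.smul_mem _ _ (monomial_mul_mem_Wl ?_ hG)
  exact (le_totalDegree hd).trans hF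

/-- substitution of polynomials of degree at most one -/
lemma aeval_mem_Wl {Y Z : Type v} {ι : Type w} {g : ι → MvPolynomial Y K}
    (φ : Y → MvPolynomial Z K) (hφ : ∀ y, (φ y).totalDegree ≤ 1) {l : ℕ} {F : MvPolynomial Y K}
    (hF : F ∈ Wl g l) : aeval φ F ∈ Wl (fun i => aeval φ (g i)) l := by
  unfold Wl at hF
  induction hF using Submodule.span_induction with
  | mem f hf =>
    obtain ⟨μ, i, hμ, rfl⟩ := hf
    rw [map_mul]
    have h0 : aeval φ (g i) ∈ Wl (fun i => aeval φ (g i)) 0 :=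
      Submodule.subset_span ⟨0, i, by simp, by simp⟩
    have h2 := totalDegree_aeval_le_mul φ 1 hφ (monomial μ (1 : K))
    have h3 : (monomial μ (1 : K)).totalDegree ≤ μ.degree := by
      rw [totalDegree_monomial _ one_ne_zero]
      exact le_of_eq rfl
    have h1 : (aeval φ (monomial μ (1 : K))).totalDegree ≤ l :=
      (h2.trans (by rw [mul_one]; exact h3)).trans hμ
    have h4 := mul_mem_Wl h1 h0
    rw [Nat.add_zero] at h4
    exact h4
  | zero => rw [map_zero]; exact Submodule.zero_mem _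
  | add x y _ _ hx hy => rw [map_add]; exact Submodule.add_mem _ hx hy
  | smul a x _ hx => rw [map_smul]; exact Submodule.smul_mem _ _ hx

/-- the inclusion behind the main inequality -/
lemma V0_le {E : Type} {ι ι' : Type} {n T D N a dl nu : ℕ}
    (pK : ι' → MvPolynomial E K) (pk : ι → MvPolynomial E K)
    (φ0 : Fin n × Fin n → MvPolynomial ((Fin D ⊕ Fin D) × Option (Fin N)) K)
    (φ : ((Fin D ⊕ Fin D) → Fin (a + 1)) → Fin n × Fin n →
      MvPolynomial (((Fin D ⊕ Fin D) × Option (Fin N)) ⊕ Fin D) K)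
    (hφ1 : ∀ k x, (φ k x).totalDegree ≤ 1)
    (hφ2 : ∀ k x, aeval (Sum.elim X 0 : _ → MvPolynomial ((Fin D ⊕ Fin D) × Option (Fin N)) K)
        (φ k x) = φ0 x)
    (hφ3 : ∀ k, aeval (φ k)
        (Matrix.of fun i j => (X (i, j) : MvPolynomial (Fin n × Fin n) K)).permanent =
        rename Sum.inl (∏ b, rename (fun v => (b, v)) (Pool.SDL.bp K N a (k b))) *
          ∏ i : Fin D, X (Sum.inr i))
    (hR2 : ∀ (A : E → MvPolynomial (((Fin D ⊕ Fin D) × Option (Fin N)) ⊕ Fin D) K),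
      (∀ e, (A e).totalDegree ≤ dl) → ∀ F ∈ Wl (fun j => aeval A (pK j)) nu,
      ∃ G ∈ Wl (fun j => aeval (fun e => aeval (Sum.elim X 0 : _ →
        MvPolynomial ((Fin D ⊕ Fin D) × Option (Fin N)) K) (A e)) (pk j)) (nu + D * (dl - 1)),
      ∀ u : ((Fin D ⊕ Fin D) × Option (Fin N)) →₀ ℕ, coeff u G =
        coeff (u.embDomain ⟨Sum.inl, Sum.inl_injective⟩ +
          ∑ b : Fin D, Finsupp.single (Sum.inr b) 1) F)
    (A : Fin T → E → MvPolynomial (Fin n × Fin n) K) (hA : ∀ t e, (A t e).totalDegree ≤ dl)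
    (f : Fin T → MvPolynomial (Fin n × Fin n) K)
    (hf : ∀ t, f t ∈ Wl (fun j => aeval (A t) (pK j)) nu)
    (h : (Matrix.of fun i j => (X (i, j) : MvPolynomial (Fin n × Fin n) K)).permanent =
      ∑ t, f t) (l : ℕ) :
    V0 (Fin D ⊕ Fin D) (Pool.SDL.bp K N a) l ≤
      ⨆ t, Wl (fun j => aeval (fun e => aeval φ0 (A t e)) (pk j)) (l + (nu + D * (dl - 1))) := by
  classical
  unfold V0
  rw [Submodule.span_le]
  rintro _ ⟨μ, k, hμ, rfl⟩
  have hcomp0 : ∀ q : MvPolynomial (Fin n × Fin n) K,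
      aeval (Sum.elim X 0 : _ → MvPolynomial ((Fin D ⊕ Fin D) × Option (Fin N)) K)
        (aeval (φ k) q) = aeval φ0 q := by
    intro q
    rw [comp_aeval_apply]
    congr 2
    funext x
    exact hφ2 k x
  have hF : ∀ t, aeval (φ k) (f t) ∈
      Wl (fun j => aeval (fun e => aeval (φ k) (A t e)) (pK j)) nu := by
    intro t
    have h1 := aeval_mem_Wl (φ k) (hφ1 k) (hf t)
    have h2 : (fun j => aeval (φ k) (aeval (A t) (pK j))) =
        fun j => aeval (fun e => aeval (φ k) (A t e)) (pK j) := by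
      funext j
      rw [comp_aeval_apply]
    rw [h2] at h1
    exact h1
  have hdeg : ∀ t e, (aeval (φ k) (A t e)).totalDegree ≤ dl := by
    intro t e
    have h1 := totalDegree_aeval_le_mul (φ k) 1 (hφ1 k) (A t e)
    rw [mul_one] at h1
    exact h1.trans (hA t e)
  choose G hG hGc using fun t => hR2 (fun e => aeval (φ k) (A t e)) (hdeg t) _ (hF t)
  have hG' : ∀ t, G t ∈ Wl (fun j => aeval (fun e => aeval φ0 (A t e)) (pk j))
      (nu + D * (dl - 1)) := by
    intro t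
    have h1 := hG t
    simp_rw [hcomp0] at h1
    exact h1
  have hsum : ∏ b, rename (fun v => (b, v)) (Pool.SDL.bp K N a (k b)) = ∑ t, G t := by
    ext u
    rw [coeff_sum]
    have h1 : ∀ t, coeff u (G t) = coeff (u.embDomain ⟨Sum.inl, Sum.inl_injective⟩ +
          ∑ b : Fin D, Finsupp.single (Sum.inr b) 1) (aeval (φ k) (f t)) := fun t => hGc t u
    rw [Finset.sum_congr rfl fun t _ => h1 t, ← coeff_sum, ← map_sum, ← h, hφ3]
    have h2 : (∏ i : Fin D, X (Sum.inr i) :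
        MvPolynomial (((Fin D ⊕ Fin D) × Option (Fin N)) ⊕ Fin D) K) =
        monomial (∑ b : Fin D, Finsupp.single (Sum.inr b) 1) 1 := by
      rw [monomial_sum_one]
      rfl
    rw [h2, coeff_mul_monomial, mul_one]
    have h3 := coeff_rename_embDomain (R := K)
      (⟨Sum.inl, Sum.inl_injective⟩ : (Fin D ⊕ Fin D) × Option (Fin N) ↪
        ((Fin D ⊕ Fin D) × Option (Fin N)) ⊕ Fin D)
      (∏ b, rename (fun v => (b, v)) (Pool.SDL.bp K N a (k b))) u
    exact h3.symm
  rw [hsum, Finset.mul_sum]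
  refine Submodule.sum_mem _ fun t _ => ?_
  exact Submodule.mem_iSup_of_mem t (monomial_mul_mem_Wl hμ (hG' t))

/-- the main inequality from its ingredients -/
theorem main_ineq_of [CharZero K] {E : Type} {ι ι' : Type} [Finite ι] {n T D N a dl nu : ℕ}
    (haN : a < N)
    (pK : ι' → MvPolynomial E K) (pk : ι → MvPolynomial E K)
    (φ0 : Fin n × Fin n → MvPolynomial ((Fin D ⊕ Fin D) × Option (Fin N)) K)
    (φ : ((Fin D ⊕ Fin D) → Fin (a + 1)) → Fin n × Fin n →
      MvPolynomial (((Fin D ⊕ Fin D) × Option (Fin N)) ⊕ Fin D) K)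
    (hφ1 : ∀ k x, (φ k x).totalDegree ≤ 1)
    (hφ2 : ∀ k x, aeval (Sum.elim X 0 : _ → MvPolynomial ((Fin D ⊕ Fin D) × Option (Fin N)) K)
        (φ k x) = φ0 x)
    (hφ3 : ∀ k, aeval (φ k)
        (Matrix.of fun i j => (X (i, j) : MvPolynomial (Fin n × Fin n) K)).permanent =
        rename Sum.inl (∏ b, rename (fun v => (b, v)) (Pool.SDL.bp K N a (k b))) *
          ∏ i : Fin D, X (Sum.inr i))
    (hR2 : ∀ (A : E → MvPolynomial (((Fin D ⊕ Fin D) × Option (Fin N)) ⊕ Fin D) K),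
      (∀ e, (A e).totalDegree ≤ dl) → ∀ F ∈ Wl (fun j => aeval A (pK j)) nu,
      ∃ G ∈ Wl (fun j => aeval (fun e => aeval (Sum.elim X 0 : _ →
        MvPolynomial ((Fin D ⊕ Fin D) × Option (Fin N)) K) (A e)) (pk j)) (nu + D * (dl - 1)),
      ∀ u : ((Fin D ⊕ Fin D) × Option (Fin N)) →₀ ℕ, coeff u G =
        coeff (u.embDomain ⟨Sum.inl, Sum.inl_injective⟩ +
          ∑ b : Fin D, Finsupp.single (Sum.inr b) 1) F)
    (Q : ℝ≥0∞) (hQ : Q < 1) (S : ℝ≥0∞)
    (hU : ∀ A : E → MvPolynomial ((Fin D ⊕ Fin D) × Option (Fin N)) K,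
      (∀ e, (A e).totalDegree ≤ dl) →
      (1 - Q) ^ (Fintype.card ((Fin D ⊕ Fin D) × Option (Fin N)) + 1) *
        ∑' l, Q ^ l * (Module.finrank K (Wl (fun j => aeval A (pk j)) l) : ℝ≥0∞) ≤ S)
    (A : Fin T → E → MvPolynomial (Fin n × Fin n) K) (hA : ∀ t e, (A t e).totalDegree ≤ dl)
    (f : Fin T → MvPolynomial (Fin n × Fin n) K)
    (hf : ∀ t, f t ∈ Wl (fun j => aeval (A t) (pK j)) nu)
    (h : (Matrix.of fun i j => (X (i, j) : MvPolynomial (Fin n × Fin n) K)).permanent =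
      ∑ t, f t) :
    Q ^ (nu + D * (dl - 1)) * (1 - (1 - Q ^ N) ^ (a + 1)) ^ (2 * D) ≤
      Q ^ ((N - a) * (2 * D)) * (T * S) := by
  classical
  set c := nu + D * (dl - 1) with hc
  -- the substituted families are covered by `hU` once some `k` exists
  have hcard : Fintype.card (Fin D ⊕ Fin D) = 2 * D := by
    rw [Fintype.card_sum, Fintype.card_fin, two_mul]
  have hL := Pool.SDL.sideL K (Fin D ⊕ Fin D) Empty N a haN Q hQ
  rw [hcard] at hL
  have hcardE : Fintype.card (((Fin D ⊕ Fin D) × Option (Fin N)) ⊕ Empty) =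
      Fintype.card ((Fin D ⊕ Fin D) × Option (Fin N)) := by
    rw [Fintype.card_sum, Fintype.card_empty, add_zero]
  rw [hcardE] at hL
  set g : Fin T → ι → MvPolynomial ((Fin D ⊕ Fin D) × Option (Fin N)) K :=
    fun t j => aeval (fun e => aeval φ0 (A t e)) (pk j) with hg
  have hφ0 : ∀ x, (φ0 x).totalDegree ≤ 1 := by
    intro x
    rw [← hφ2 (fun _ => 0) x]
    have h1 := totalDegree_aeval_le_mul (K := K)
      (Sum.elim X 0 : _ → MvPolynomial ((Fin D ⊕ Fin D) × Option (Fin N)) K) 1 (by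
        rintro (y | y)
        · simp
        · simp) (φ (fun _ => 0) x)
    rw [mul_one] at h1
    exact h1.trans (hφ1 _ _)
  have hdeg : ∀ t e, (aeval φ0 (A t e)).totalDegree ≤ dl := by
    intro t e
    have h1 := totalDegree_aeval_le_mul φ0 1 hφ0 (A t e)
    rw [mul_one] at h1
    exact h1.trans (hA t e)
  have hfin : ∀ l, Module.finrank K (Pool.SDL.Vl (Fin D ⊕ Fin D) Empty (Pool.SDL.bp K N a) l) ≤
      ∑ t, Module.finrank K (Wl (g t) (l + c)) := by
    intro l
    refine (Vl_finrank_le _ _ _).trans ?_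
    refine (Submodule.finrank_mono (V0_le pK pk φ0 φ hφ1 hφ2 hφ3 hR2 A hA f hf h l)).trans ?_
    exact finrank_iSup_le fun t => Wl (g t) (l + c)
  have hser : Q ^ c * ∑' l, Q ^ l *
      (Module.finrank K (Pool.SDL.Vl (Fin D ⊕ Fin D) Empty (Pool.SDL.bp K N a) l) : ℝ≥0∞) ≤
      ∑ t, ∑' l, Q ^ l * (Module.finrank K (Wl (g t) l) : ℝ≥0∞) := by
    calc Q ^ c * ∑' l, Q ^ l *
        (Module.finrank K (Pool.SDL.Vl (Fin D ⊕ Fin D) Empty (Pool.SDL.bp K N a) l) : ℝ≥0∞)
        ≤ Q ^ c * ∑' l, ∑ t, Q ^ l * (Module.finrank K (Wl (g t) (l + c)) : ℝ≥0∞) := by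
          gcongr with l
          rw [← Finset.mul_sum]
          gcongr
          exact_mod_cast hfin l
      _ = ∑ t, Q ^ c * ∑' l, Q ^ l * (Module.finrank K (Wl (g t) (l + c)) : ℝ≥0∞) := by
          rw [Summable.tsum_finsetSum (fun _ _ => ENNReal.summable), Finset.mul_sum]
      _ ≤ _ := by
          refine Finset.sum_le_sum fun t _ => ?_
          exact series_shift (fun l => Module.finrank K (Wl (g t) l)) c Q
  set M := Fintype.card ((Fin D ⊕ Fin D) × Option (Fin N)) + 1 with hM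
  have hfinal : (1 - Q) ^ M * ∑ t, ∑' l, Q ^ l * (Module.finrank K (Wl (g t) l) : ℝ≥0∞) ≤
      T * S := by
    rw [Finset.mul_sum]
    refine (Finset.sum_le_sum fun t _ => hU (fun e => aeval φ0 (A t e)) (hdeg t)).trans ?_
    rw [Finset.sum_const, Finset.card_univ, Fintype.card_fin, nsmul_eq_mul]
  calc Q ^ c * (1 - (1 - Q ^ N) ^ (a + 1)) ^ (2 * D)
      ≤ Q ^ c * (Q ^ ((N - a) * (2 * D)) * ((1 - Q) ^ M * ∑' l, Q ^ l *
        (Module.finrank K (Pool.SDL.Vl (Fin D ⊕ Fin D) Empty (Pool.SDL.bp K N a) l) :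
          ℝ≥0∞))) := by gcongr
    _ = Q ^ ((N - a) * (2 * D)) * ((1 - Q) ^ M * (Q ^ c * ∑' l, Q ^ l *
        (Module.finrank K (Pool.SDL.Vl (Fin D ⊕ Fin D) Empty (Pool.SDL.bp K N a) l) :
          ℝ≥0∞))) := by ring
    _ ≤ Q ^ ((N - a) * (2 * D)) * ((1 - Q) ^ M *
        ∑ t, ∑' l, Q ^ l * (Module.finrank K (Wl (g t) l) : ℝ≥0∞)) := by gcongr
    _ ≤ _ := by gcongr

end Pool.SDD
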